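import Pool.Agent.H78.GX.H6.N4D.TD
import Mathlib.NumberTheory.DirichletCharacter.Basic

/-!
# Theorem (G), section 3a: the gap with characters, targets
-/

set_option autoImplicit false

open Finset Pool.Agent.H6.N4D Pool.Agent.H78.GX.H6.N4D Pool.Agent.H78.GX

namespace Pool.Agent.H78.GX.H83.GS

/-- the quadratic form of the shift by `v` with a coefficient -/
noncomputable def Dx (g : ℤ → ℂ) (z : ℂ) (v : ℤ) : ℝ := ∑' t : ℤ, ‖g (t + v) + z * g t‖ ^ 2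

/-- PSC. Spectral positivity, complex coefficients. -/
def T_PSC : Prop := ∀ g : ℤ → ℂ, (Function.support g).Finite →
  ∀ (ι : Type) (s : Finset ι) (c₀ : ℝ) (c : ι → ℂ) (l : ι → ℤ),
    (∀ ξ : ℝ, 0 ≤ c₀ + ∑ i ∈ s, (c i * ee (l i * ξ)).re) →
    0 ≤ c₀ * ∑' t : ℤ, ‖g t‖ ^ 2 +
      ∑ i ∈ s, (c i * ∑' t : ℤ, g (t + l i) * (starRingEnd ℂ) (g t)).re

/-- SPX. Comparison of quadratic forms, with unimodular coefficients. -/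
def T_SPX : Prop := ∀ g : ℤ → ℂ, (Function.support g).Finite →
  ∀ (ι κ : Type) (s : Finset ι) (s' : Finset κ) (c₀ : ℝ) (c : ι → ℝ) (c' : κ → ℝ)
    (z : ι → ℂ) (l : ι → ℤ) (l' : κ → ℤ), (∀ i ∈ s, ‖z i‖ = 1) →
    (∀ ξ : ℝ, c₀ ≤ ∑ i ∈ s, c i * (1 + ((starRingEnd ℂ) (z i) * ee (l i * ξ)).re) +
      ∑ j ∈ s', c' j * (1 - Real.cos (2 * Real.pi * ξ * l' j))) →
    2 * c₀ * ∑' t : ℤ, ‖g t‖ ^ 2 ≤ ∑ i ∈ s, c i * Dx g (z i) (l i) + ∑ j ∈ s', c' j * Dg g (l' j)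

/-- MPX. Mertens for nonprincipal characters. -/
def T_MPX : Prop := ∀ (d : ℕ) (χ : DirichletCharacter ℂ d), 1 ≤ d → χ ≠ 1 → ∀ ε : ℝ, 0 < ε →
  ∃ X₀ : ℝ, ∀ X, X₀ ≤ X → ‖∑ p ∈ Pr (PP X) (PP X ^ 2), χ (p : ZMod d) * ((1 / p : ℝ) : ℂ)‖ ≤ ε

/-- PWX. The pointwise inequality with characters, `B` independent of the modulus. -/
def T_PWX : Prop := ∃ B : ℕ, 2 ≤ B ∧ ∀ m₀ : ℕ, ∃ c₂ X₀ : ℝ, 0 < c₂ ∧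
  ∀ S : Par, Okx S → X₀ ≤ S.X → ∀ d : ℕ, 1 ≤ d → d ≤ m₀ → ∀ (χ : DirichletCharacter ℂ d) (ξ : ℝ),
    c₂ ≤ ∑ p ∈ Pr S.P (S.P ^ B), 1 / (p : ℝ) * (1 + (χ (p : ZMod d) * ee (S.l p * ξ)).re) +
      1 / (S.V : ℝ) * ∑ w ∈ Icc 1 S.V, (1 - Real.cos (2 * Real.pi * ξ * w))

/-- FINX. No function with some mass in the interior is multiplied by `-χ(p)` along the edges. -/
def T_FINX : Prop := ∃ B : ℕ, 2 ≤ B ∧ ∀ (m₀ : ℕ) (M η : ℝ), 1 ≤ M → 0 < η →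
  ∃ (c₂ : ℝ) (K₀ : ℕ), 0 < c₂ ∧ B ≤ K₀ ∧ ∀ K : ℕ, K₀ ≤ K → ∃ X₀ : ℝ, ∀ S : Par, Okx S →
    S.K = K → X₀ ≤ S.X → ∀ d : ℕ, 1 ≤ d → d ≤ m₀ → ∀ (χ : DirichletCharacter ℂ d) (f : ℤ → ℂ),
      (∀ t, ‖f t‖ ≤ M) → η * S.N ≤ ∑ t ∈ In S 1, ‖f t‖ ^ 2 →
      (∀ w : ℕ, 1 ≤ w → w ≤ S.V →
        S.cnt (fun t => t + (w : ℤ) ∈ S.I ∧ c₂ < ‖f (t + w) - f t‖) ≤ c₂ * S.N) →
      ∑ p ∈ Pr S.P (S.P ^ B), 1 / (p : ℝ) *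
        S.cnt (fun t => t - S.l p ∈ S.I ∧ c₂ < ‖f (t - S.l p) + χ (p : ZMod d) * f t‖) ≤
          c₂ * S.N →
      False

/-- BTW. The weight of the prime numbers of a residue class. -/
def T_BTW : Prop := ∃ C X₀ : ℝ, 1 ≤ C ∧ ∀ X, X₀ ≤ X → ∀ b : ℕ, 1 ≤ b → ∀ A : Finset ℕ,
  A ⊆ Pr (PP X) (PP X ^ 2) → (∀ p ∈ A, ∀ q ∈ A, (p : ℤ) ≡ q [ZMOD b]) →
    ∑ p ∈ A, 1 / (p : ℝ) ≤ C / (Nat.totient b : ℝ) + 1 / PP X ^ (1 / 4 : ℝ)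

end Pool.Agent.H78.GX.H83.GS
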