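import Pool.Agent.H78.GX.H83.GS.TX
import Pool.Agent.H20.VT.M1

/-!
# Mertens for nonprincipal characters on `(P, P ^ 2]`
-/

set_option autoImplicit false

open Finset Pool.Agent.H6.N4D Pool.Agent.H78.GX.H6.N4D Pool.Agent.H78.GX

namespace Pool.Agent.H78.GX.H83.GS

theorem abel_le (a : ℕ → ℂ) (g : ℕ → ℝ) (A : ℕ) (D : ℝ)
    (hD : ∀ N, A ≤ N → ‖∑ n ∈ Ioc A N, a n‖ ≤ D)
    (hg : ∀ n, A < n → g (n + 1) ≤ g n) (hg0 : ∀ n, A < n → 0 ≤ g n) (N : ℕ) (hN : A ≤ N) :
    ‖∑ n ∈ Ioc A N, a n * (g n : ℂ)‖ ≤ D * g (A + 1) := by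
  have key : ∀ k : ℕ, ∑ n ∈ Ioc A (A + k), a n * (g n : ℂ) =
      (∑ n ∈ Ioc A (A + k), a n) * (g (A + k + 1) : ℂ) +
        ∑ n ∈ Ioc A (A + k), (∑ m ∈ Ioc A n, a m) * ((g n - g (n + 1) : ℝ) : ℂ) := by
    intro k
    induction k with
    | zero => simp
    | succ k ih =>
      have e : ∀ f : ℕ → ℂ, ∑ n ∈ Ioc A (A + (k + 1)), f n =
          ∑ n ∈ Ioc A (A + k), f n + f (A + k + 1) := by
        intro f
        rw [show A + (k + 1) = A + k + 1 from rfl, Finset.sum_Ioc_succ_top (by omega)]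
      rw [e, e, ih, e, show A + (k + 1) = A + k + 1 from rfl,
        Finset.sum_Ioc_succ_top (show A ≤ A + k by omega)]
      push_cast
      ring
  have hD0 : 0 ≤ D := (norm_nonneg _).trans (hD A le_rfl)
  obtain ⟨k, rfl⟩ := Nat.exists_eq_add_of_le hN
  rw [key]
  have tel : ∀ k : ℕ, ∑ n ∈ Ioc A (A + k), (g n - g (n + 1)) = g (A + 1) - g (A + k + 1) := by
    intro k
    induction k with
    | zero => simp
    | succ k ih =>
      rw [show A + (k + 1) = A + k + 1 from rfl, Finset.sum_Ioc_succ_top (by omega), ih]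
      ring
  have h1 : ‖(∑ n ∈ Ioc A (A + k), a n) * (g (A + k + 1) : ℂ)‖ ≤ D * g (A + k + 1) := by
    rw [norm_mul, Complex.norm_real, Real.norm_of_nonneg (hg0 _ (by omega))]
    exact mul_le_mul_of_nonneg_right (hD _ (by omega)) (hg0 _ (by omega))
  have h2 : ‖∑ n ∈ Ioc A (A + k), (∑ m ∈ Ioc A n, a m) * ((g n - g (n + 1) : ℝ) : ℂ)‖ ≤
      D * (g (A + 1) - g (A + k + 1)) := by
    refine (norm_sum_le _ _).trans ?_
    rw [← tel, Finset.mul_sum]
    refine Finset.sum_le_sum fun n hn => ?_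
    rw [Finset.mem_Ioc] at hn
    have h3 : 0 ≤ g n - g (n + 1) := by linarith [hg n hn.1]
    rw [norm_mul, Complex.norm_real, Real.norm_of_nonneg h3]
    exact mul_le_mul_of_nonneg_right (hD _ hn.1.le) h3
  calc _ ≤ D * g (A + k + 1) + D * (g (A + 1) - g (A + k + 1)) :=
        (norm_add_le _ _).trans (add_le_add h1 h2)
    _ = D * g (A + 1) := by ring

theorem pf_MPX (hM1 : Pool.Agent.H47.VT.T_M1) : T_MPX := by
  intro d χ hd hχ ε hε
  obtain ⟨C, hC⟩ := hM1 d χ hd hχ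
  have hC0 : 0 ≤ C := (norm_nonneg _).trans (hC 0)
  obtain ⟨X₀, hX₀⟩ := LL_large (max 1 (2 * C / ε))
  refine ⟨X₀, fun X hX => ?_⟩
  have hL := hX₀ X hX
  have hL1 : 1 ≤ LL X := (le_max_left _ _).trans hL
  have hL2 : 2 * C / ε ≤ LL X := (le_max_right _ _).trans hL
  set A : ℕ := ⌊PP X⌋₊ with hA
  have hP1 : 1 ≤ PP X := by
    rw [show PP X = Real.exp (LL X) from rfl]
    exact Real.one_le_exp (by linarith)
  have hA1 : 1 ≤ A := by
    rw [hA, Nat.one_le_floor_iff]
    exact hP1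
  set a : ℕ → ℂ := fun n => if n.Prime then
    Pool.Agent.H30.BV.cv χ n * ((Real.log n / n : ℝ) : ℂ) else 0 with ha
  have hsum : ∀ N : ℕ, ∑ n ∈ Icc 1 N, a n = ∑ p ∈ (Finset.Icc 1 N).filter Nat.Prime,
      Pool.Agent.H30.BV.cv χ p * ((Real.log p / p : ℝ) : ℂ) := by
    intro N
    rw [ha, Finset.sum_filter]
  have hD : ∀ N, A ≤ N → ‖∑ n ∈ Ioc A N, a n‖ ≤ 2 * C := by
    intro N hN
    have e : ∑ n ∈ Icc 1 N, a n = ∑ n ∈ Icc 1 A, a n + ∑ n ∈ Ioc A N, a n := by
      rw [← Finset.sum_union]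
      · congr 1
        ext n
        rw [mem_union, mem_Icc, mem_Icc, mem_Ioc]
        omega
      · rw [Finset.disjoint_left]
        intro n hn hn'
        rw [mem_Icc] at hn
        rw [mem_Ioc] at hn'
        omega
    have e' : ∑ n ∈ Ioc A N, a n = ∑ n ∈ Icc 1 N, a n - ∑ n ∈ Icc 1 A, a n := by
      rw [e]
      ring
    rw [e', hsum, hsum]
    calc _ ≤ C + C := (norm_sub_le _ _).trans (add_le_add (hC N) (hC A))
      _ = 2 * C := by ring
  have hlog : ∀ n : ℕ, A < n → LL X ≤ Real.log n := by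
    intro n hn
    rw [← log_PP]
    apply Real.log_le_log (PP_pos X)
    have h1 := Nat.lt_floor_add_one (PP X)
    rw [← hA] at h1
    have h2 : ((A : ℝ) + 1) ≤ n := by exact_mod_cast hn
    linarith
  have hB : A ≤ ⌊PP X ^ 2⌋₊ := Nat.floor_le_floor (by nlinarith)
  have hmain := abel_le a (fun n => 1 / Real.log n) A (2 * C) hD
    (by
      intro n hn
      have h1 := hlog n hn
      have h2 : Real.log n ≤ Real.log ((n + 1 : ℕ) : ℝ) := by
        apply Real.log_le_log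
        · have : 0 < n := by omega
          exact_mod_cast this
        · push_cast
          linarith
      exact one_div_le_one_div_of_le (by linarith) h2)
    (by
      intro n hn
      have h1 := hlog n hn
      have : 0 < Real.log n := by linarith
      positivity) _ hB
  have e : ∑ p ∈ Pr (PP X) (PP X ^ 2), χ (p : ZMod d) * ((1 / p : ℝ) : ℂ) =
      ∑ n ∈ Ioc A ⌊PP X ^ 2⌋₊, a n * ((1 / Real.log n : ℝ) : ℂ) := by
    unfold Pr
    rw [Finset.sum_filter]
    refine Finset.sum_congr rfl fun n hn => ?_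
    rw [Finset.mem_Ioc] at hn
    rw [ha]
    simp only
    split_ifs with hp
    · have h1 : Real.log n ≠ 0 := by linarith [hlog n hn.1]
      have h2 : Pool.Agent.H30.BV.cv χ n = χ (n : ZMod d) := rfl
      rw [h2, mul_assoc, ← Complex.ofReal_mul]
      congr 2
      field_simp
    · simp
  rw [e]
  refine hmain.trans ?_
  have h1 := hlog (A + 1) (by omega)
  have h2 : 1 / Real.log ((A + 1 : ℕ) : ℝ) ≤ 1 / LL X := one_div_le_one_div_of_le (by linarith) h1
  calc 2 * C * (1 / Real.log ((A + 1 : ℕ) : ℝ)) ≤ 2 * C * (1 / LL X) :=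
        mul_le_mul_of_nonneg_left h2 (by positivity)
    _ ≤ ε := by
        rw [div_le_iff₀ hε] at hL2
        rw [mul_one_div, div_le_iff₀ (by linarith)]
        linarith

end Pool.Agent.H78.GX.H83.GS
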