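import Pool.Agent.H78.GX.H83.GS.TX

/-!
# Theorem (G), section 3a, step (6): rationality
-/

set_option autoImplicit false

open Finset Pool.Agent.H6.N4D Pool.Agent.H78.GX.H6.N4D Pool.Agent.H78.GX

namespace Pool.Agent.H78.GX.H83.GS

/-- RAT. If for many prime numbers `p` in `(P, P ^ 2]` the number `p β` is, modulo one, close to
one of `r₀` numbers then `β` is close to a fraction with a bounded denominator. -/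
def T_RAT : Prop := ∀ r₀ : ℕ, 1 ≤ r₀ → ∃ (b₀ : ℕ) (X₀ : ℝ), 1 ≤ b₀ ∧ ∀ X, X₀ ≤ X →
  ∀ (A : Finset ℕ) (β e : ℝ) (γ : ℕ → ℝ) (ι : ℕ → ℕ), A ⊆ Pr (PP X) (PP X ^ 2) →
    1 / 8 ≤ ∑ p ∈ A, 1 / (p : ℝ) → 0 ≤ e → e ≤ 1 / (8 * PP X ^ 4) →
    (∀ p ∈ A, ι p < r₀ ∧ nd (p * β - γ (ι p)) ≤ e) →
    ∃ b a : ℕ, 1 ≤ b ∧ b ≤ b₀ ∧ a < b ∧ Nat.Coprime a b ∧ nd (β - (a : ℝ) / b) ≤ 2 * e

/-- TOT. Euler's function tends to infinity. -/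
def T_TOT : Prop := ∀ m : ℕ, ∀ b : ℕ, 1 ≤ b → Nat.totient b ≤ m → b ≤ (2 * m).factorial

end Pool.Agent.H78.GX.H83.GS
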